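import Pool.Agent.TH894.NG1
import Pool.Agent.H74R5.DatumC

/-! Artin's density with correction factor: local densities for the bases `D a² u ^ k`. -/

set_option autoImplicit false

namespace Pool.Agent.Q251.AF

open Finset Filter Topology
open Pool.Agent.TH894.ND (mu mu_nonneg mu_le_one mu_art sum_inv)
open Pool.Agent.TH890.AS (locDens)
open Pool.Agent.H74R5 (GG GG_nn GG_le GGC_lim cstD Adapted)
open Pool.Agent.H730R2.AA (rho)
open Pool.Agent.H386R2.Artin (PP)

lemma rho_prod {n : ℕ} (hn : n ≠ 0) : (Nat.totient n : ℝ) / n = ∏ l ∈ n.primeFactors, (1 - 1 / (l : ℝ)) := by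
  have h := Nat.totient_eq_mul_prod_factors n
  have h1 : ((Nat.totient n : ℚ) : ℝ) = ((n * ∏ p ∈ n.primeFactors, (1 - (p : ℚ)⁻¹) : ℚ) : ℝ) := by rw [h]
  push_cast at h1
  rw [h1]
  have hn0 : (n : ℝ) ≠ 0 := by exact_mod_cast hn
  rw [mul_div_cancel_left₀ _ hn0]
  exact prod_congr rfl fun l _ => by rw [one_div]

/-- the local density for a prime with `gcd (p - 1, r) = 1` -/
lemma loc_eq (D : ℤ) (a : ℤ) (r k p : ℕ) (hp : p.Prime) (hp2 : p ≠ 2) (hD : ¬ (p : ℤ) ∣ D) (ha : ¬ (p : ℤ) ∣ a)
    (hcop : Nat.Coprime (p - 1) r) (hk2 : 2 ∣ k) (hk : Adapted r k) :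
    locDens (D * a ^ 2) k p = rho p * (1 - (jacobiSym D p : ℝ)) := by
  classical
  have : Fact p.Prime := ⟨hp⟩
  have hpi : Prime (p : ℤ) := Nat.prime_iff_prime_int.1 hp
  have hB : ¬ (p : ℤ) ∣ D * a ^ 2 := by
    intro h
    rcases hpi.dvd_or_dvd h with h | h
    · exact hD h
    · exact ha (hpi.dvd_of_dvd_pow h)
  have hD' : (D : ZMod p) ≠ 0 := by rwa [Ne, ZMod.intCast_zmod_eq_zero_iff_dvd]
  have ha' : (a : ZMod p) ≠ 0 := by rwa [Ne, ZMod.intCast_zmod_eq_zero_iff_dvd]
  have hodd : p % 2 = 1 := by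
    rcases hp.eq_two_or_odd with h | h
    · exact absurd h hp2
    · exact h
  have hp1 : p - 1 ≠ 0 := by have := hp.two_le; omega
  have h2p : 2 ∣ p - 1 := by omega
  have hjl : jacobiSym D p = legendreSym p D := (jacobiSym.legendreSym.to_jacobiSym p D).symm
  unfold locDens
  rcases legendreSym.eq_one_or_neg_one p hD' with h | h
  · rw [if_pos]
    · rw [hjl, h]
      push_cast
      ring
    · right
      refine ⟨2, Nat.prime_two, hk2, h2p, ?_⟩
      rw [legendreSym.eq_one_iff p hD'] at h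
      obtain ⟨z, hz⟩ := h
      refine ⟨z * a, ?_⟩
      push_cast
      rw [hz]
      ring
  · rw [if_neg]
    · rw [hjl, h]
      unfold rho
      rw [rho_prod hp1]
      have e : (p - 1).primeFactors.filter (fun l => ¬ l ∣ k) = (p - 1).primeFactors.erase 2 := by
        ext l
        rw [mem_filter, mem_erase]
        constructor
        · rintro ⟨h1, h2⟩
          refine ⟨?_, h1⟩
          rintro rfl
          exact h2 hk2
        · rintro ⟨h1, h2⟩
          refine ⟨h2, fun h3 => ?_⟩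
          have hl := Nat.prime_of_mem_primeFactors h2
          have h4 := hk l hl h3 h1
          have h5 := Nat.dvd_of_mem_primeFactors h2
          have h6 : l ∣ Nat.gcd (p - 1) r := Nat.dvd_gcd h5 h4
          rw [Nat.Coprime] at hcop
          rw [hcop] at h6
          exact hl.one_lt.ne' (Nat.dvd_one.1 h6)
      rw [e]
      have h2m : 2 ∈ (p - 1).primeFactors := Nat.mem_primeFactors.2 ⟨Nat.prime_two, h2p, hp1⟩
      rw [← mul_prod_erase _ _ h2m]
      push_cast
      ring
    · rintro (h1 | ⟨l, hl, hlk, hlp, y, hy⟩)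
      · exact hB h1
      · by_cases hl2 : l = 2
        · subst hl2
          rw [legendreSym.eq_neg_one_iff] at h
          apply h
          refine ⟨y * (a : ZMod p)⁻¹, ?_⟩
          have h3 : (D : ZMod p) * (a : ZMod p) ^ 2 = y ^ 2 := by
            rw [hy]
            push_cast
            ring
          field_simp
          rw [← h3]
        · have h4 := hk l hl hlk hl2
          have h6 : l ∣ Nat.gcd (p - 1) r := Nat.dvd_gcd hlp h4
          rw [Nat.Coprime] at hcop
          rw [hcop] at h6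
          exact hl.one_lt.ne' (Nat.dvd_one.1 h6)

open Classical in
/-- the condition at `p` -/
def TT (D : ℤ) (r : ℕ) (i : ℤ × ℕ) (p : ℕ) (u : ZMod p) : Prop :=
  Nat.Coprime (p - 1) r ∧ orderOf (((D * i.1 ^ 2 : ℤ) : ZMod p) * u ^ i.2) = p - 1

lemma mu_false (p : ℕ) (T : ZMod p → Prop) (h : ∀ u, ¬ T u) : mu p T = 0 := by
  classical
  unfold mu
  have : (range p).filter (fun a : ℕ => T (a : ZMod p)) = ∅ := filter_eq_empty_iff.2 (fun a _ => h _)
  rw [this]
  simp

lemma mu_loc (D : ℤ) (a : ℤ) (r k p : ℕ) (hp : p.Prime) (hk0 : k ≠ 0) (hk2 : 2 ∣ k) (hk : Adapted r k) :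
    |mu p (TT D r (a, k) p) - GG D 1 r p| ≤
      1 / p + (if (p : ℤ) ∣ (2 * D * a) then 2 else 0) := by
  classical
  have : Fact p.Prime := ⟨hp⟩
  have hpi : Prime (p : ℤ) := Nat.prime_iff_prime_int.1 hp
  have hpr : (0 : ℝ) < p := by exact_mod_cast hp.pos
  have h0 := GG_nn D 1 zero_le_one le_rfl r p
  have h1 := GG_le D 1 zero_le_one le_rfl r p
  have h2 := mu_nonneg p (TT D r (a, k) p)
  have h3 := mu_le_one p (TT D r (a, k) p)
  by_cases hd : (p : ℤ) ∣ (2 * D * a)
  · rw [if_pos hd]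
    have : (0 : ℝ) < 1 / p := by positivity
    rw [abs_le]
    constructor <;> linarith
  · rw [if_neg hd, add_zero]
    have hp2 : p ≠ 2 := by
      rintro rfl
      exact hd ⟨D * a, by push_cast; ring⟩
    have hD : ¬ (p : ℤ) ∣ D := fun h => hd ((h.mul_left 2).mul_right a)
    have ha : ¬ (p : ℤ) ∣ a := fun h => hd (h.mul_left _)
    have hPR : p ∈ Pool.Agent.H730R2.AA.PR D p := by
      unfold Pool.Agent.H730R2.AA.PR
      rw [mem_filter, mem_range]
      exact ⟨by omega, hp, hp2, hD⟩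
    by_cases hcop : Nat.Coprime (p - 1) r
    · have e1 : mu p (TT D r (a, k) p) =
          mu p (fun x => orderOf (((D * a ^ 2 : ℤ) : ZMod p) * x ^ k) = p - 1) := by
        congr 1
        funext u
        exact propext ⟨fun h => h.2, fun h => ⟨hcop, h⟩⟩
      have e2 : GG D 1 r p = locDens (D * a ^ 2) k p := by
        rw [loc_eq D a r k p hp hp2 hD ha hcop hk2 hk]
        unfold GG
        rw [if_pos ⟨hPR, hcop⟩, one_mul]
      rw [e1, e2]
      exact mu_art p (D * a ^ 2) hk0
    · rw [mu_false p _ (fun u h => hcop h.1)]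
      unfold GG
      rw [if_neg (fun h => hcop h.2)]
      simp
      
end Pool.Agent.Q251.AF
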