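import Pool.Agent.Q251.AF.Loc
import Pool.Agent.H386R2.Artin.SumH

/-! Artin's density with correction factor for the bases `D a² m ^ k`, `m` obtained from an arbitrary
integer by few changes of digits. -/

set_option autoImplicit false

namespace Pool.Agent.Q251.AF

open Finset Filter Topology
open Pool.Agent.TH894.ND (mu mu_nonneg mu_le_one mu_art sum_inv uniform_law)
open Pool.Agent.TH894.NG (dvd_count)
open Pool.Agent.TH894.SM (change)
open Pool.Agent.H74R5 (GG GG_nn GG_le GGC_lim cstD Adapted)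
open Pool.Agent.H386R2.Artin (PP card_PP)

/-- the sum of the local densities against the main term -/
lemma sum_loc (D : ℤ) (hD0 : D ≠ 0) (r : ℕ) (A x : ℕ) (hx : 1 ≤ x) (a : ℤ) (ha : a ≠ 0)
    (haA : |a| ≤ (x : ℤ) ^ A) (k : ℕ)
    (hk0 : k ≠ 0) (hk2 : 2 ∣ k) (hk : Adapted r k) :
    |∑ p ∈ PP x, mu p (TT D r (a, k) p) - ∑ p ∈ PP x, GG D 1 r p| ≤
      1 + Real.log x + 2 * ((Real.log |2 * (D : ℝ)| + A * Real.log x) / Real.log 2) := by
  classical
  have hPP : ∀ p ∈ PP x, p.Prime ∧ p ≤ x := by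
    intro p hp
    unfold PP at hp
    rw [mem_filter, mem_range] at hp
    exact ⟨hp.2, by omega⟩
  rw [← sum_sub_distrib]
  have h1 : |∑ p ∈ PP x, (mu p (TT D r (a, k) p) - GG D 1 r p)| ≤
      ∑ p ∈ PP x, (1 / (p : ℝ) + (if (p : ℤ) ∣ (2 * D * a) then 2 else 0)) :=
    (abs_sum_le_sum_abs _ _).trans (sum_le_sum fun p hp => mu_loc D a r k p (hPP p hp).1 hk0 hk2 hk)
  refine h1.trans ?_
  rw [sum_add_distrib]
  have h2 := sum_inv x hx (PP x) hPP
  have h3 : ∑ p ∈ PP x, (if (p : ℤ) ∣ (2 * D * a) then (2 : ℝ) else 0) =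
      2 * (((PP x).filter (fun p : ℕ => (p : ℤ) ∣ (2 * D * a))).card : ℝ) := by
    rw [← sum_filter, sum_const, nsmul_eq_mul, mul_comm]
  rw [h3]
  have hB : (2 * D * a : ℤ) ≠ 0 := mul_ne_zero (mul_ne_zero two_ne_zero hD0) ha
  have h4 := dvd_count (PP x) (fun p hp => (hPP p hp).1) (2 * D * a) hB
  have hl2 : 0 < Real.log 2 := Real.log_pos (by norm_num)
  have har : (0 : ℝ) < |(a : ℝ)| := abs_pos.2 (by exact_mod_cast ha)
  have hDr : (0 : ℝ) < |2 * (D : ℝ)| := abs_pos.2 (mul_ne_zero two_ne_zero (by exact_mod_cast hD0))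
  have h5 : Real.log |((2 * D * a : ℤ) : ℝ)| ≤ Real.log |2 * (D : ℝ)| + A * Real.log x := by
    push_cast
    rw [abs_mul, Real.log_mul hDr.ne' har.ne']
    have h6 : |(a : ℝ)| ≤ (x : ℝ) ^ A := by exact_mod_cast haA
    have h7 := Real.log_le_log har h6
    rw [Real.log_pow] at h7
    linarith
  have h8 : ((((PP x).filter (fun p : ℕ => (p : ℤ) ∣ (2 * D * a))).card : ℕ) : ℝ) ≤
      (Real.log |2 * (D : ℝ)| + A * Real.log x) / Real.log 2 := by
    rw [le_div_iff₀ hl2]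
    exact h4.trans h5
  linarith

/-- the analytic estimates for large `x` -/
lemma ev (D : ℤ) (hD : Squarefree D) (h4 : D % 4 = 1) (hD1 : D ≠ 1)
    (r : ℕ) (hr : Squarefree r) (hro : Odd r) (A : ℕ) (ε : ℝ) (hε : 0 < ε) :
    ∃ x₁ : ℕ, ∀ x : ℕ, x₁ ≤ x →
      (1 + Real.log x + 2 * ((Real.log |2 * (D : ℝ)| + A * Real.log x) / Real.log 2) ≤
        ε / 3 * (Nat.primeCounting x : ℝ)) ∧
      (|∑ p ∈ PP x, GG D 1 r p - cstD D r * (Nat.primeCounting x : ℝ)| ≤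
        ε / 3 * (Nat.primeCounting x : ℝ)) ∧
      Real.sqrt (Nat.primeCounting x) * (x : ℝ) ^ (1 / 8 : ℝ) < ε / 3 * (Nat.primeCounting x : ℝ) := by
  have hlim := GGC_lim D hD h4 hD1 r hr hro
  have e2 : ∀ᶠ x : ℕ in atTop, |(∑ p ∈ PP x, GG D 1 r p) / (Nat.primeCounting x : ℝ) - cstD D r| < ε / 3 := by
    have := Metric.tendsto_nhds.1 hlim (ε / 3) (by positivity)
    filter_upwards [this] with x hx
    rwa [Real.dist_eq] at hx
  have cast := tendsto_natCast_atTop_atTop (R := ℝ)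
  obtain ⟨L, hL⟩ : ∃ L : ℝ, L = Real.log |2 * (D : ℝ)| := ⟨_, rfl⟩
  rw [← hL]
  have hl2 : 0 < Real.log 2 := Real.log_pos (by norm_num)
  -- logs against sqrt
  obtain ⟨κ, hκ⟩ : ∃ κ : ℝ, κ = 1 + 2 * (A / Real.log 2) := ⟨_, rfl⟩
  have hκ0 : 0 < κ := by rw [hκ]; positivity
  have e3 : ∀ᶠ x : ℕ in atTop, 1 + 2 * (L / Real.log 2) + κ * Real.log x ≤ ε / 3 * (x : ℝ) ^ (1 / 2 : ℝ) := by
    have h1 := (isLittleO_log_rpow_atTop (show (0 : ℝ) < 1 / 2 by norm_num)).bound (show (0 : ℝ) < ε / (6 * κ) by positivity)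
    have h2 : ∀ᶠ x : ℝ in atTop, 6 / ε * |1 + 2 * (L / Real.log 2)| ≤ x ^ (1 / 2 : ℝ) :=
      (tendsto_rpow_atTop (show (0 : ℝ) < 1 / 2 by norm_num)).eventually (eventually_ge_atTop _)
    filter_upwards [cast.eventually h1, cast.eventually h2, cast.eventually (eventually_ge_atTop 1)] with x hx1 hx2 hx3
    have h5 : 0 ≤ Real.log x := Real.log_nonneg hx3
    rw [Real.norm_eq_abs, Real.norm_eq_abs, abs_of_nonneg h5, abs_of_nonneg (by positivity)] at hx1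
    have h6 : κ * Real.log x ≤ ε / 6 * (x : ℝ) ^ (1 / 2 : ℝ) := by
      calc κ * Real.log x ≤ κ * (ε / (6 * κ) * (x : ℝ) ^ (1 / 2 : ℝ)) := mul_le_mul_of_nonneg_left hx1 hκ0.le
        _ = ε / 6 * (x : ℝ) ^ (1 / 2 : ℝ) := by field_simp
    have h7 : |1 + 2 * (L / Real.log 2)| ≤ ε / 6 * (x : ℝ) ^ (1 / 2 : ℝ) := by
      calc |1 + 2 * (L / Real.log 2)| = ε / 6 * (6 / ε * |1 + 2 * (L / Real.log 2)|) := by field_simp
        _ ≤ _ := mul_le_mul_of_nonneg_left hx2 (by positivity)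
    have h8 := le_abs_self (1 + 2 * (L / Real.log 2))
    linarith
  have e4 : ∀ᶠ x : ℕ in atTop, (x : ℝ) ^ (1 / 2 : ℝ) ≤ (x : ℝ) / (2 * Real.log x) := by
    have h1 := (isLittleO_log_rpow_atTop (show (0 : ℝ) < 1 / 2 by norm_num)).bound (show (0 : ℝ) < 1 / 2 by norm_num)
    filter_upwards [cast.eventually h1, cast.eventually (eventually_ge_atTop 3)] with x hx1 hx3
    have h5 : 0 < Real.log x := Real.log_pos (by linarith)
    rw [Real.norm_eq_abs, Real.norm_eq_abs, abs_of_nonneg h5.le, abs_of_nonneg (by positivity)] at hx1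
    rw [le_div_iff₀ (by positivity)]
    have hx0 : (0 : ℝ) < x := by linarith
    have h6 : (x : ℝ) ^ (1 / 2 : ℝ) * (x : ℝ) ^ (1 / 2 : ℝ) = x := by
      rw [← Real.rpow_add hx0]; norm_num
    calc (x : ℝ) ^ (1 / 2 : ℝ) * (2 * Real.log x) ≤ (x : ℝ) ^ (1 / 2 : ℝ) * (x : ℝ) ^ (1 / 2 : ℝ) :=
          mul_le_mul_of_nonneg_left (by linarith) (by positivity)
      _ = x := h6
  have e5 : ∀ᶠ x : ℕ in atTop, (x : ℝ) ^ (1 / 8 : ℝ) < ε / 3 * (x : ℝ) ^ (1 / 4 : ℝ) := by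
    have h2 : ∀ᶠ x : ℝ in atTop, 3 / ε < x ^ (1 / 8 : ℝ) :=
      (tendsto_rpow_atTop (show (0 : ℝ) < 1 / 8 by norm_num)).eventually (eventually_gt_atTop _)
    filter_upwards [cast.eventually h2, cast.eventually (eventually_ge_atTop 1)] with x hx2 hx3
    have hx0 : (0 : ℝ) < x := by linarith
    have h6 : (x : ℝ) ^ (1 / 4 : ℝ) = (x : ℝ) ^ (1 / 8 : ℝ) * (x : ℝ) ^ (1 / 8 : ℝ) := by
      rw [← Real.rpow_add hx0]; norm_num
    rw [h6]
    have h7 : (0 : ℝ) < (x : ℝ) ^ (1 / 8 : ℝ) := by positivity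
    have h8 : 1 < ε / 3 * (x : ℝ) ^ (1 / 8 : ℝ) := by
      calc (1 : ℝ) = ε / 3 * (3 / ε) := by field_simp
        _ < _ := mul_lt_mul_of_pos_left hx2 (by positivity)
    nlinarith
  obtain ⟨x₁, hx₁⟩ := eventually_atTop.1 (e2.and (e3.and (e4.and (e5.and (Pool.Agent.H386R2.Artin.SH.pi_lower.and
    (cast.eventually (eventually_ge_atTop (3 : ℝ))))))))
  refine ⟨x₁, fun x hx => ?_⟩
  obtain ⟨f2, f3, f4, f5, f6, f7⟩ := hx₁ x hx
  have hpi : (x : ℝ) ^ (1 / 2 : ℝ) ≤ (Nat.primeCounting x : ℝ) := f4.trans f6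
  have hx0 : (0 : ℝ) < x := by linarith
  have hx12 : (0 : ℝ) < (x : ℝ) ^ (1 / 2 : ℝ) := by positivity
  have hpi0 : (0 : ℝ) < (Nat.primeCounting x : ℝ) := hx12.trans_le hpi
  refine ⟨?_, ?_, ?_⟩
  · have h1 : 1 + Real.log x + 2 * ((L + A * Real.log x) / Real.log 2) =
        1 + 2 * (L / Real.log 2) + κ * Real.log x := by
      rw [hκ]; field_simp; ring
    rw [h1]
    exact f3.trans (mul_le_mul_of_nonneg_left hpi (by positivity))
  · have h1 : ∑ p ∈ PP x, GG D 1 r p - cstD D r * (Nat.primeCounting x : ℝ) =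
        ((∑ p ∈ PP x, GG D 1 r p) / (Nat.primeCounting x : ℝ) - cstD D r) * (Nat.primeCounting x : ℝ) := by
      field_simp
    rw [h1, abs_mul, abs_of_pos hpi0]
    exact mul_le_mul_of_nonneg_right f2.le hpi0.le
  · have h1 : (x : ℝ) ^ (1 / 4 : ℝ) ≤ Real.sqrt (Nat.primeCounting x) := by
      apply Real.le_sqrt_of_sq_le
      rw [← Real.rpow_natCast, ← Real.rpow_mul hx0.le]
      norm_num
      norm_num at hpi
      exact hpi
    have h2 : (x : ℝ) ^ (1 / 8 : ℝ) < ε / 3 * Real.sqrt (Nat.primeCounting x) :=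
      f5.trans_le (mul_le_mul_of_nonneg_left h1 (by positivity))
    have h3 : 0 < Real.sqrt (Nat.primeCounting x) := Real.sqrt_pos.2 hpi0
    calc Real.sqrt (Nat.primeCounting x) * (x : ℝ) ^ (1 / 8 : ℝ)
        < Real.sqrt (Nat.primeCounting x) * (ε / 3 * Real.sqrt (Nat.primeCounting x)) :=
          mul_lt_mul_of_pos_left h2 h3
      _ = ε / 3 * (Real.sqrt (Nat.primeCounting x) * Real.sqrt (Nat.primeCounting x)) := by ring
      _ = _ := by rw [Real.mul_self_sqrt hpi0.le]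

open Classical in
/-- **The theorem.** -/
theorem main (b : ℕ) (hb : 2 ≤ b) (A : ℕ) : ∃ c : ℝ, 0 < c ∧
    ∀ D : ℤ, Squarefree D → D % 4 = 1 → D ≠ 1 → ∀ r : ℕ, Squarefree r → Odd r → ∀ ε : ℝ, 0 < ε →
    ∃ y₀ : ℕ, ∀ s K y : ℕ, 2 * s ≤ K → y₀ ≤ y →
    ∀ N : ℕ, N < b ^ K → ∀ f : ℕ → ℕ, (∀ j, f j < b ∧ f j ≠ N / b ^ j % b) →
    (((powersetCard s (range K)).filter (fun S => ∃ x : ℕ, y ≤ x ∧ (x : ℝ) ≤ Real.exp (c * s) ∧
      ∃ a : ℤ, ∃ k : ℕ, a ≠ 0 ∧ |a| ≤ (x : ℤ) ^ A ∧ 1 ≤ k ∧ k ≤ x ^ A ∧ 2 ∣ k ∧ Adapted r k ∧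
      ε * (Nat.primeCounting x : ℝ) <
        |((((range (x + 1)).filter (fun p : ℕ => p.Prime ∧ Nat.Coprime (p - 1) r ∧
          orderOf ((D * a ^ 2 * ((change b K N f S : ℕ) : ℤ) ^ k : ℤ) : ZMod p) = p - 1)).card : ℕ) : ℝ) -
          cstD D r * (Nat.primeCounting x : ℝ)|)).card : ℝ) ≤
      1 / (y : ℝ) ^ A * (K.choose s : ℝ) := by
  obtain ⟨c, hc, x₀, h⟩ := uniform_law b hb (1 / 8) A (2 * A + 2) (by norm_num)
  refine ⟨c, hc, fun D hD h4 hD1 r hr hro ε hε => ?_⟩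
  obtain ⟨x₁, hx₁⟩ := ev D hD h4 hD1 r hr hro A ε hε
  refine ⟨x₀ + x₁ + 3, fun s K y hsK hy N hN f hf => ?_⟩
  have hy0 : (0 : ℝ) < y := by exact_mod_cast (by omega : 0 < y)
  have hyA : 1 / (y : ℝ) ^ A = (y : ℝ) ^ (-(A : ℝ)) := by
    rw [Real.rpow_neg hy0.le, Real.rpow_natCast, one_div]
  rw [hyA]
  have hPP : ∀ x, ∀ p ∈ PP x, p.Prime ∧ p ≤ x := by
    intro x p hp
    unfold PP at hp
    rw [mem_filter, mem_range] at hp
    exact ⟨hp.2, by omega⟩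
  refine h s K y hsK (by omega) N hN f hf (ℤ × ℕ) (fun x => if x < 3 then ∅ else (Icc (-((x : ℤ) ^ A)) ((x : ℤ) ^ A)) ×ˢ (Icc 1 (x ^ A))) ?_
    (fun x _ => PP x) (fun x _ => hPP x) (fun i p u => TT D r i p u) _ (filter_subset _ _) ?_
  · intro x _
    show (((if x < 3 then ∅ else (Icc (-((x : ℤ) ^ A)) ((x : ℤ) ^ A)) ×ˢ (Icc 1 (x ^ A))) : Finset (ℤ × ℕ)).card : ℝ) ≤ _
    split_ifs with hx3
    · rw [card_empty, Nat.cast_zero]
      positivity
    · push Not at hx3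
      have hxr : (3 : ℝ) ≤ x := by exact_mod_cast hx3
      have hxA : (1 : ℝ) ≤ (x : ℝ) ^ A := one_le_pow₀ (by linarith)
      rw [card_product, Int.card_Icc, Nat.card_Icc]
      have e1 : ((((x : ℤ) ^ A + 1 - -((x : ℤ) ^ A)).toNat : ℕ) : ℝ) = 2 * (x : ℝ) ^ A + 1 := by
        have e2 : (((((x : ℤ) ^ A + 1 - -((x : ℤ) ^ A)).toNat : ℕ) : ℤ) : ℝ) = (((x : ℤ) ^ A + 1 - -((x : ℤ) ^ A) : ℤ) : ℝ) := by
          rw [Int.toNat_of_nonneg (by have : (0 : ℤ) ≤ (x : ℤ) ^ A := by positivity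
                                      linarith)]
        push_cast at e2
        push_cast
        rw [e2]
        ring
      push_cast [Nat.add_sub_cancel]
      rw [e1]
      have e3 : (x : ℝ) ^ (2 * (A : ℝ) + 2) = (x : ℝ) ^ A * (x : ℝ) ^ A * ((x : ℝ) * x) := by
        have : (2 * (A : ℝ) + 2) = ((2 * A + 2 : ℕ) : ℝ) := by push_cast; ring
        rw [this, Real.rpow_natCast]
        ring
      rw [e3]
      have hx9 : (9 : ℝ) ≤ x * x := by nlinarith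
      have e4 : (2 * (x : ℝ) ^ A + 1) ≤ (x : ℝ) ^ A * (x * x) := by
        have e5 : (x : ℝ) ^ A * 9 ≤ (x : ℝ) ^ A * (x * x) := mul_le_mul_of_nonneg_left hx9 (by positivity)
        linarith
      calc (2 * (x : ℝ) ^ A + 1) * (x : ℝ) ^ A ≤ ((x : ℝ) ^ A * (x * x)) * (x : ℝ) ^ A := mul_le_mul_of_nonneg_right e4 (by positivity)
        _ = _ := by ring
  · intro S hS
    rw [mem_filter] at hS
    obtain ⟨-, x, hyx, hxs, a, k, ha0, haA, hk1, hkA, hk2, hkr, hlt⟩ := hS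
    have hx3 : 3 ≤ x := by omega
    have hxr0 : (0 : ℝ) < x := by exact_mod_cast (by omega : 0 < x)
    obtain ⟨f1, f2, f3⟩ := hx₁ x (by omega)
    refine ⟨x, hyx, ?_, (a, k), ?_, ?_⟩
    · have := Real.log_le_log hxr0 hxs
      rwa [Real.log_exp] at this
    · rw [if_neg (by omega), mem_product, mem_Icc, mem_Icc]
      exact ⟨abs_le.1 haA, hk1, hkA⟩
    · have hs := sum_loc D hD.ne_zero r A x (by omega) a ha0 haA k (by omega) hk2 hkr
      have hcard : (((PP x).filter (fun p => TT D r (a, k) p ((change b K N f S : ℕ) : ZMod p))).card) =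
          ((range (x + 1)).filter (fun p : ℕ => p.Prime ∧ Nat.Coprime (p - 1) r ∧
          orderOf ((D * a ^ 2 * ((change b K N f S : ℕ) : ℤ) ^ k : ℤ) : ZMod p) = p - 1)).card := by
        apply congrArg Finset.card
        ext p
        unfold PP TT
        simp only [mem_filter, mem_range, Int.cast_mul, Int.cast_pow, Int.cast_natCast, and_assoc]
      rw [← hcard] at hlt
      rw [card_PP]
      obtain ⟨Z, hZ⟩ : ∃ Z : ℝ, Z = ((((PP x).filter (fun p => TT D r (a, k) p ((change b K N f S : ℕ) : ZMod p))).card : ℕ) : ℝ) := ⟨_, rfl⟩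
      have hlt' : ε * (Nat.primeCounting x : ℝ) < |Z - cstD D r * (Nat.primeCounting x : ℝ)| := by
        rw [hZ]
        convert hlt using 4
      have goal : Real.sqrt (Nat.primeCounting x) * (x : ℝ) ^ (1 / 8 : ℝ) < |Z - ∑ p ∈ PP x, mu p (TT D r (a, k) p)| := by
        have t1 : |Z - cstD D r * (Nat.primeCounting x : ℝ)| ≤ |Z - ∑ p ∈ PP x, mu p (TT D r (a, k) p)| +
            |∑ p ∈ PP x, mu p (TT D r (a, k) p) - ∑ p ∈ PP x, GG D 1 r p| +
            |∑ p ∈ PP x, GG D 1 r p - cstD D r * (Nat.primeCounting x : ℝ)| := by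
          have := abs_add_three (Z - ∑ p ∈ PP x, mu p (TT D r (a, k) p))
            (∑ p ∈ PP x, mu p (TT D r (a, k) p) - ∑ p ∈ PP x, GG D 1 r p)
            (∑ p ∈ PP x, GG D 1 r p - cstD D r * (Nat.primeCounting x : ℝ))
          refine le_trans (le_of_eq ?_) this
          congr 1
          ring
        linarith
      rw [hZ] at goal
      convert goal using 4

end Pool.Agent.Q251.AF
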